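import Mathlib

/-!
# Diagonals of separately absolutely continuous maps into metric spaces are absolute Baire-one

Problem MP_680d10_gt, question Q1: positive answer for every metric space `Z`.

Idea: over dyadic grids one follows a staircase in the square made of axis-parallel moves
close to the diagonal and above it. Near a grid point `z` the staircase jumps horizontally to the vertical line
`x = z`, climbs one grid step on this line, and jumps back horizontally. The heights used at
a fixed `x` decrease with the level, so that bounded variation of `f (x, ·)` gives summability.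
-/

set_option autoImplicit false

open Set Filter Topology

namespace Pool.Agent.Results.MP_680d10_gt.DiagAbsBaireOne

universe u

/-- The closed unit interval `[0,1]`. -/
abbrev I : Type := Set.Icc (0 : ℝ) 1

/-- Absolutely continuous maps `[0,1] → Z`, exactly as in the problem: for every `ε > 0` there is
`δ > 0` such that for all `a_1 < b_1 ≤ a_2 < b_2 ≤ ... ≤ a_n < b_n` with total length `< δ` the
sum of the distances `d (h (b_k), h (a_k))` is `< ε`. -/
def AbsCont {Z : Type u} [MetricSpace Z] (h : I → Z) : Prop :=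
  ∀ ε : ℝ, 0 < ε → ∃ δ : ℝ, 0 < δ ∧ ∀ (n : ℕ) (a b : Fin n → I),
    (∀ k, a k < b k) → (∀ k l, k < l → b k ≤ a l) → ∑ k, ((b k : ℝ) - (a k : ℝ)) < δ →
      ∑ k, dist (h (b k)) (h (a k)) < ε

/-- Separately absolutely continuous maps `[0,1]² → Z`. -/
def SepAbsCont {Z : Type u} [MetricSpace Z] (f : I × I → Z) : Prop :=
  (∀ y : I, AbsCont fun x => f (x, y)) ∧ ∀ x : I, AbsCont fun y => f (x, y)

/-- Absolute Baire-one maps `[0,1] → Z`: pointwise limits of a sequence of continuous maps `G n`
such that the distances `d (G (n+1) x, G n x)` are summable for every `x`. -/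
def AbsBaireOne {Z : Type u} [MetricSpace Z] (g : I → Z) : Prop :=
  ∃ G : ℕ → I → Z, (∀ n, Continuous (G n)) ∧
    (∀ x, Tendsto (fun n => G n x) atTop (𝓝 (g x))) ∧
    ∀ x, Summable fun n => dist (G (n + 1) x) (G n x)

section AC

variable {Z : Type u} [MetricSpace Z] {h : I → Z}

lemma AbsCont.nonstrict (hh : AbsCont h) (ε : ℝ) (hε : 0 < ε) : ∃ δ : ℝ, 0 < δ ∧
    ∀ (n : ℕ) (a b : Fin n → I), (∀ k, a k ≤ b k) → (∀ k l, k < l → b k ≤ a l) →
      ∑ k, ((b k : ℝ) - (a k : ℝ)) < δ → ∑ k, dist (h (b k)) (h (a k)) < ε := by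
  classical
  obtain ⟨δ, hδ, H⟩ := hh ε hε
  refine ⟨δ, hδ, fun n a b hab hord hsum => ?_⟩
  set S : Finset (Fin n) := Finset.univ.filter fun k => a k < b k with hS
  have hout : ∀ k, k ∉ S → a k = b k := by
    intro k hk
    refine le_antisymm (hab k) ?_
    by_contra hlt
    exact hk (Finset.mem_filter.2 ⟨Finset.mem_univ _, not_le.1 hlt⟩)
  let e := S.orderEmbOfFin rfl
  have hsumS : ∀ F : Fin n → ℝ, (∀ k, k ∉ S → F k = 0) → ∑ k, F (e k) = ∑ k, F k := by
    intro F hF
    rw [← Finset.sum_subset (Finset.subset_univ S) (fun k _ hk => hF k hk)]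
    have h1 : S = Finset.univ.map e.toEmbedding := by
      apply Finset.coe_injective
      rw [Finset.coe_map]
      simp [e]
    conv_rhs => rw [h1]
    rw [Finset.sum_map]
    rfl
  have h1 := H S.card (fun k => a (e k)) (fun k => b (e k)) (fun k => ?_) (fun k l hkl => ?_) ?_
  · rw [hsumS (fun k => dist (h (b k)) (h (a k)))] at h1
    · exact h1
    · intro k hk
      simp [hout k hk]
  · exact (Finset.mem_filter.1 (S.orderEmbOfFin_mem rfl k)).2
  · exact hord _ _ (e.strictMono hkl)
  · rw [hsumS (fun k => (b k : ℝ) - (a k : ℝ))]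
    · exact hsum
    · intro k hk
      simp [hout k hk]

lemma AbsCont.continuous (hh : AbsCont h) : Continuous h := by
  rw [Metric.continuous_iff]
  intro x ε hε
  obtain ⟨δ, hδ, H⟩ := hh.nonstrict ε hε
  refine ⟨δ, hδ, fun y hy => ?_⟩
  have hd : |(y : ℝ) - x| < δ := by
    rw [Subtype.dist_eq, Real.dist_eq] at hy
    exact hy
  rcases le_total x y with hxy | hxy
  · have := H 1 (fun _ => x) (fun _ => y) (fun _ => hxy) (fun k l hkl => by
      exact absurd hkl (by rw [Subsingleton.elim k l]; exact lt_irrefl _)) (by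
      simp only [Finset.univ_unique, Finset.sum_const, Finset.card_singleton, one_smul]
      exact (le_abs_self _).trans_lt hd)
    simpa using this
  · have := H 1 (fun _ => y) (fun _ => x) (fun _ => hxy) (fun k l hkl => by
      exact absurd hkl (by rw [Subsingleton.elim k l]; exact lt_irrefl _)) (by
      simp only [Finset.univ_unique, Finset.sum_const, Finset.card_singleton, one_smul]
      rw [abs_sub_comm] at hd
      exact (le_abs_self _).trans_lt hd)
    rw [dist_comm]
    simpa using this

/-- along a decreasing sequence an absolutely continuous map has finite variation -/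
lemma AbsCont.summable (hh : AbsCont h) (y : ℕ → I) (hy : Antitone y) :
    Summable fun n => dist (h (y (n + 1))) (h (y n)) := by
  obtain ⟨δ, hδ, H⟩ := hh.nonstrict 1 one_pos
  -- the sequence is Cauchy
  have hbdd : BddBelow (range fun n => (y n : ℝ)) := ⟨0, by
    rintro _ ⟨n, rfl⟩
    exact (y n).2.1⟩
  have hanti : Antitone fun n => (y n : ℝ) := fun m n hmn => hy hmn
  have hlim := tendsto_atTop_ciInf hanti hbdd
  set L := ⨅ n, (y n : ℝ) with hL
  have hLle : ∀ n, L ≤ y n := fun n => ciInf_le hbdd n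
  obtain ⟨n₀, hn₀⟩ := (hlim.eventually (gt_mem_nhds (show L < L + δ by linarith))).exists
  rw [← summable_nat_add_iff n₀]
  refine summable_of_sum_range_le (c := 1) (fun _ => dist_nonneg) fun N => ?_
  have h1 := H N (fun k => y (n₀ + (N - k))) (fun k => y (n₀ + (N - 1 - k))) ?_ ?_ ?_
  · refine le_trans (le_of_eq ?_) h1.le
    rw [← Finset.sum_range_reflect]
    rw [Finset.sum_range]
    refine Finset.sum_congr rfl fun k _ => ?_
    have hk := k.2
    have e1 : N - 1 - (k : ℕ) + n₀ + 1 = n₀ + (N - k) := by omega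
    have e2 : N - 1 - (k : ℕ) + n₀ = n₀ + (N - 1 - k) := by omega
    rw [e1, e2, dist_comm]
  · intro k
    apply hy
    omega
  · intro k l hkl
    apply hy
    have : (k : ℕ) < l := hkl
    omega
  · have e3 : ∑ k : Fin N, ((y (n₀ + (N - 1 - k)) : ℝ) - y (n₀ + (N - k))) =
        (y n₀ : ℝ) - y (n₀ + N) := by
      have e4 := Finset.sum_range_sub' (fun i => (y (n₀ + i) : ℝ)) N
      rw [add_zero] at e4
      rw [← e4, ← Finset.sum_range_reflect, Finset.sum_range]
      refine Finset.sum_congr rfl fun k _ => ?_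
      have hk := k.2
      have e5 : N - 1 - (k : ℕ) + 1 = N - k := by omega
      rw [e5]
    have : ∑ k : Fin N, ((y (n₀ + (N - 1 - k)) : ℝ) - y (n₀ + (N - k))) < δ := by
      rw [e3]
      have := hLle (n₀ + N)
      linarith
    exact this

end AC

section Level

variable {Z : Type u} [MetricSpace Z] {F : ℝ → ℝ → Z}

/-- the radius of good approximation around the vertical line through `z` -/
lemma exists_radius (h1 : ∀ x, Continuous (F x)) (h2 : ∀ y, Continuous fun x => F x y)
    (z c d ε : ℝ) (hε : 0 < ε) : ∃ ρ : ℝ, 0 < ρ ∧ ∀ x, |x - z| ≤ ρ →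
      (∀ w ∈ Icc c d, ∃ y ∈ Icc c d, dist (F z w) (F x y) ≤ 2 * ε) ∧
      dist (F x c) (F z c) ≤ ε ∧ dist (F x d) (F z d) ≤ ε := by
  classical
  obtain ⟨t, htcd, ht⟩ := (isCompact_Icc (a := c) (b := d)).elim_nhds_subcover
    (fun w => {w' | dist (F z w') (F z w) < ε}) (fun w _ =>
      (h1 z).continuousAt.preimage_mem_nhds (Metric.ball_mem_nhds _ hε))
  have hρ : ∀ w : ℝ, ∃ ρ : ℝ, 0 < ρ ∧ ∀ x, |x - z| ≤ ρ → dist (F x w) (F z w) ≤ ε := by
    intro w
    obtain ⟨δ, hδ, H⟩ := Metric.continuous_iff.1 (h2 w) z ε hε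
    refine ⟨δ / 2, half_pos hδ, fun x hx => (H x ?_).le⟩
    rw [Real.dist_eq]
    linarith
  choose ρ hρ0 hρ1 using hρ
  obtain ⟨r, hr0, hr⟩ : ∃ r : ℝ, 0 < r ∧ ∀ w ∈ insert c (insert d t), r ≤ ρ w := by
    refine ⟨(insert c (insert d t)).inf' ⟨c, Finset.mem_insert_self _ _⟩ ρ, ?_, ?_⟩
    · rw [Finset.lt_inf'_iff]
      exact fun w _ => hρ0 w
    · intro w hw
      exact Finset.inf'_le ρ hw
  refine ⟨r, hr0, fun x hx => ⟨?_, ?_, ?_⟩⟩
  · intro w hw
    obtain ⟨w', hw', hww'⟩ := mem_iUnion₂.1 (ht hw)
    refine ⟨w', htcd w' hw', ?_⟩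
    have e1 : dist (F z w) (F z w') < ε := hww'
    have e2 : dist (F x w') (F z w') ≤ ε :=
      hρ1 w' x (hx.trans (hr w' (by simp [hw'])))
    calc dist (F z w) (F x w') ≤ dist (F z w) (F z w') + dist (F z w') (F x w') :=
          dist_triangle _ _ _
      _ ≤ 2 * ε := by rw [dist_comm (F z w') (F x w')]; linarith
  · exact hρ1 c x (hx.trans (hr c (by simp)))
  · exact hρ1 d x (hx.trans (hr d (by simp)))

/-- the constraint on the heights: `z` is the grid point after `x`, `s` the grid step -/
def Ht (z s η x y : ℝ) : Prop :=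
  z ≤ y ∧ y ≤ z + s ∧ (x < z - η → y = z) ∧ (z - η / 2 < x → y = z + s)

/-- one step of the staircase -/
lemma exists_step (h1 : ∀ x, Continuous (F x)) (h2 : ∀ y, Continuous fun x => F x y)
    (z s ε η : ℝ) (hs : 0 < s) (hε : 0 < ε) (hη : 0 < η)
    (hr : ∀ x, |x - z| ≤ η → (∀ w ∈ Icc z (z + s), ∃ y ∈ Icc z (z + s),
      dist (F z w) (F x y) ≤ 2 * ε) ∧
      dist (F x z) (F z z) ≤ ε ∧ dist (F x (z + s)) (F z (z + s)) ≤ ε) :
    ∃ g : ℝ → Z, Continuous g ∧ (∀ x, x ≤ z - η → g x = F x z) ∧ g z = F z (z + s) ∧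
      ∀ x, x ≤ z → ∃ y, Ht z s η x y ∧ dist (g x) (F x y) ≤ 2 * ε := by
  classical
  set p : ℝ := z - 5 * η / 6 with hp
  set q : ℝ := z - 4 * η / 6 with hq
  let g4 : ℝ → Z := fun x => if x ≤ z - η / 2 then F (z - 3 * (x - q)) (z + s) else F x (z + s)
  let g3 : ℝ → Z := fun x => if x ≤ q then F z (z + s * (6 * (x - p) / η)) else g4 x
  let g2 : ℝ → Z := fun x => if x ≤ p then F (z - η + 6 * (x - (z - η))) z else g3 x
  let g1 : ℝ → Z := fun x => if x ≤ z - η then F x z else g2 x
  have c4 : Continuous g4 := by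
    refine Continuous.if_le ((h2 _).comp (by fun_prop)) (h2 _) continuous_id continuous_const ?_
    intro x hx
    have : z - 3 * (x - q) = x := by rw [hx, hq]; ring
    rw [this]
  have c3 : Continuous g3 := by
    refine Continuous.if_le ((h1 z).comp (by fun_prop)) c4 continuous_id continuous_const ?_
    intro x hx
    have e1 : z + s * (6 * (x - p) / η) = z + s := by
      rw [hx, hq, hp]
      field_simp
      ring
    have e2 : x ≤ z - η / 2 := by rw [hx, hq]; linarith
    have e3 : z - 3 * (x - q) = z := by rw [hx]; ring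
    simp only [g4, e2, if_true, e1, e3]
  have c2 : Continuous g2 := by
    refine Continuous.if_le ((h2 z).comp (by fun_prop)) c3 continuous_id continuous_const ?_
    intro x hx
    have e1 : z - η + 6 * (x - (z - η)) = z := by rw [hx, hp]; ring
    have e2 : x ≤ q := by rw [hx, hp, hq]; linarith
    have e3 : z + s * (6 * (x - p) / η) = z := by rw [hx]; ring
    simp only [g3, e2, if_true, e1, e3]
  have c1 : Continuous g1 := by
    refine Continuous.if_le (h2 z) c2 continuous_id continuous_const ?_
    intro x hx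
    have e2 : x ≤ p := by rw [hx, hp]; linarith
    have e1 : z - η + 6 * (x - (z - η)) = x := by rw [hx]; ring
    simp only [g2, e2, if_true, e1]
  refine ⟨g1, c1, fun x hx => by simp only [g1, hx, if_true], ?_, ?_⟩
  · have e1 : ¬ z ≤ z - η := by linarith
    have e2 : ¬ z ≤ p := by rw [hp]; linarith
    have e3 : ¬ z ≤ q := by rw [hq]; linarith
    have e4 : ¬ z ≤ z - η / 2 := by linarith
    simp only [g1, g2, g3, g4, e1, e2, e3, e4, if_false]
  · intro x hxz
    by_cases hx1 : x ≤ z - η
    · refine ⟨z, ⟨le_rfl, by linarith, fun _ => rfl, fun h => by linarith⟩, ?_⟩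
      simp only [g1, hx1, if_true, dist_self]
      linarith
    have hxη : |x - z| ≤ η := by
      rw [abs_sub_comm, abs_of_nonneg (by linarith)]
      linarith
    obtain ⟨r1, r2, r3⟩ := hr x hxη
    by_cases hx2 : x ≤ p
    · refine ⟨z, ⟨le_rfl, by linarith, fun _ => rfl, fun h => by rw [hp] at hx2; linarith⟩, ?_⟩
      simp only [g1, hx1, if_false, g2, hx2, if_true]
      have e1 : |z - η + 6 * (x - (z - η)) - z| ≤ η := by
        rw [abs_le]
        rw [hp] at hx2
        constructor <;> linarith
      have e2 := (hr _ e1).2.1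
      calc dist (F (z - η + 6 * (x - (z - η))) z) (F x z)
          ≤ dist (F (z - η + 6 * (x - (z - η))) z) (F z z) + dist (F z z) (F x z) :=
            dist_triangle _ _ _
        _ ≤ 2 * ε := by rw [dist_comm (F z z) (F x z)]; linarith
    by_cases hx3 : x ≤ q
    · have e1 : z + s * (6 * (x - p) / η) ∈ Icc z (z + s) := by
        have e2 : 0 ≤ 6 * (x - p) / η := by
          apply div_nonneg _ hη.le
          linarith
        have e3 : 6 * (x - p) / η ≤ 1 := by
          rw [div_le_one hη]
          rw [hq] at hx3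
          rw [hp]
          linarith
        constructor
        · have := mul_nonneg hs.le e2
          linarith
        · have := mul_le_mul_of_nonneg_left e3 hs.le
          linarith
      obtain ⟨y, hy, hyd⟩ := r1 _ e1
      refine ⟨y, ⟨hy.1, hy.2, fun h => by linarith, fun h => by rw [hq] at hx3; linarith⟩, ?_⟩
      simp only [g1, hx1, if_false, g2, hx2, g3, hx3, if_true]
      exact hyd
    by_cases hx4 : x ≤ z - η / 2
    · refine ⟨z + s, ⟨by linarith, le_rfl, fun h => by linarith, fun h => rfl⟩, ?_⟩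
      simp only [g1, hx1, if_false, g2, hx2, g3, hx3, g4, hx4, if_true]
      have e1 : |z - 3 * (x - q) - z| ≤ η := by
        have : z - 3 * (x - q) - z = -(3 * (x - q)) := by ring
        rw [this, abs_neg, abs_of_nonneg (by linarith)]
        rw [hq]
        linarith
      have e2 := (hr _ e1).2.2
      calc dist (F (z - 3 * (x - q)) (z + s)) (F x (z + s))
          ≤ dist (F (z - 3 * (x - q)) (z + s)) (F z (z + s)) +
              dist (F z (z + s)) (F x (z + s)) := dist_triangle _ _ _
        _ ≤ 2 * ε := by rw [dist_comm (F z (z + s)) (F x (z + s))]; linarith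
    · refine ⟨z + s, ⟨by linarith, le_rfl, fun h => by linarith, fun h => rfl⟩, ?_⟩
      simp only [g1, hx1, if_false, g2, hx2, g3, hx3, g4, hx4, dist_self]
      linarith

/-- the staircase at one level -/
lemma exists_level (h1 : ∀ x, Continuous (F x)) (h2 : ∀ y, Continuous fun x => F x y)
    (s ε : ℝ) (hs : 0 < s) (hε : 0 < ε) (η : ℝ → ℝ) (hη : ∀ z, 0 < η z) (hηs : ∀ z, η z < s)
    (hr : ∀ z x, |x - z| ≤ η z → (∀ w ∈ Icc z (z + s), ∃ y ∈ Icc z (z + s),
      dist (F z w) (F x y) ≤ 2 * ε) ∧
      dist (F x z) (F z z) ≤ ε ∧ dist (F x (z + s)) (F z (z + s)) ≤ ε) (K : ℕ) :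
    ∃ g : ℝ → Z, Continuous g ∧ g (K * s) = F (K * s) ((K + 1) * s) ∧
      ∀ k : ℕ, k < K → ∀ x, k * s ≤ x → x < (k + 1) * s →
        ∃ y, Ht ((k + 1) * s) s (η ((k + 1) * s)) x y ∧ dist (g x) (F x y) ≤ 2 * ε := by
  induction K with
  | zero =>
    refine ⟨fun _ => F (0 * s) ((0 + 1) * s), continuous_const, by simp, ?_⟩
    intro k hk
    exact absurd hk (Nat.not_lt_zero k)
  | succ K ih =>
    obtain ⟨g, hg, hgK, hgx⟩ := ih
    obtain ⟨g', hg', hgl, hgr, hgx'⟩ := exists_step h1 h2 ((K + 1) * s) s ε (η ((K + 1) * s)) hs hε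
      (hη _) (hr _)
    refine ⟨fun x => if x ≤ K * s then g x else g' x, ?_, ?_, ?_⟩
    · refine Continuous.if_le hg hg' continuous_id continuous_const ?_
      intro x hx
      rw [hx, hgK, hgl]
      have := hηs ((K + 1) * s)
      linarith
    · have e1 : ¬ ((K + 1 : ℕ) : ℝ) * s ≤ K * s := by
        push_cast
        linarith
      simp only [e1, if_false]
      push_cast
      rw [hgr]
      congr 1
      ring
    · intro k hk x hx1 hx2
      rcases Nat.lt_succ_iff_lt_or_eq.1 hk with hk' | rfl
      · have hkK : ((k : ℝ) + 1) * s ≤ K * s := by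
          have : (k : ℝ) + 1 ≤ K := by exact_mod_cast hk'
          gcongr
        have e1 : x ≤ K * s := by linarith
        simp only [e1, if_true]
        exact hgx k hk' x hx1 hx2
      · by_cases e1 : x ≤ k * s
        · have e2 : x = k * s := le_antisymm e1 hx1
          simp only [e1, if_true]
          obtain ⟨y, hy, hyd⟩ := hgx' x hx2.le
          refine ⟨y, hy, ?_⟩
          rw [e2, hgK]
          have e3 := hgl (k * s) (by
            have := hηs ((k + 1) * s)
            linarith)
          rw [← e3, ← e2]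
          exact hyd
        · simp only [e1, if_false]
          exact hgx' x hx2.le

end Level

theorem result : ∀ (Z : Type u) [MetricSpace Z] (f : I × I → Z), SepAbsCont f →
    AbsBaireOne (fun x : I => f (x, x)) := by
  intro Z _ f hf
  classical
  set pr : ℝ → I := Set.projIcc 0 1 zero_le_one with hpr
  have hprc : Continuous pr := continuous_projIcc
  have hprm : Monotone pr := monotone_projIcc zero_le_one
  let F : ℝ → ℝ → Z := fun x y => f (pr x, pr y)
  have h1 : ∀ x, Continuous (F x) := fun x => (hf.2 (pr x)).continuous.comp hprc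
  have h2 : ∀ y, Continuous fun x => F x y := fun y => (hf.1 (pr y)).continuous.comp hprc
  let s : ℕ → ℝ := fun n => (1 / 2 : ℝ) ^ n
  have hs : ∀ n, 0 < s n := fun n => by positivity
  have hs1 : ∀ n, s (n + 1) = s n / 2 := fun n => by
    simp only [s, pow_succ]
    ring
  -- radii
  have hρ := fun (n : ℕ) (z : ℝ) => exists_radius h1 h2 z z (z + s n) (s n) (hs n)
  choose ρ hρ0 hρ1 using hρ
  let η : ℕ → ℝ → ℝ := fun n z => Nat.rec (min (ρ 0 z) (s 0 / 2))
    (fun n r => min (min (ρ (n + 1) z) (s (n + 1) / 2)) (r / 3)) n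
  have hη0 : ∀ n z, 0 < η n z := by
    intro n z
    induction n with
    | zero => exact lt_min (hρ0 0 z) (half_pos (hs 0))
    | succ n ih => exact lt_min (lt_min (hρ0 _ z) (half_pos (hs _))) (by positivity)
  have hηρ : ∀ n z, η n z ≤ ρ n z := by
    intro n z
    cases n with
    | zero => exact min_le_left _ _
    | succ n => exact (min_le_left _ _).trans (min_le_left _ _)
  have hηs : ∀ n z, η n z < s n := by
    intro n z
    cases n with
    | zero => exact (min_le_right _ _).trans_lt (half_lt_self (hs 0))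
    | succ n => exact ((min_le_left _ _).trans (min_le_right _ _)).trans_lt (half_lt_self (hs _))
  have hηη : ∀ n z, η (n + 1) z < η n z / 2 := by
    intro n z
    have e1 : η (n + 1) z ≤ η n z / 3 := min_le_right _ _
    have := hη0 n z
    linarith
  have hlev := fun n => exists_level h1 h2 (s n) (s n) (hs n) (hs n) (η n) (hη0 n) (hηs n)
    (fun z x hx => hρ1 n z x (hx.trans (hηρ n z))) (2 ^ n + 1)
  choose g hg hgK hgx using hlev
  -- the grid index
  let κ : ℕ → I → ℕ := fun n x => ⌊(x : ℝ) * 2 ^ n⌋₊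
  have hκ1 : ∀ n (x : I), (κ n x : ℝ) * s n ≤ x := by
    intro n x
    have e1 : (κ n x : ℝ) ≤ x * 2 ^ n := Nat.floor_le (mul_nonneg x.2.1 (by positivity))
    have e2 : (x : ℝ) * 2 ^ n * s n = x := by
      simp only [s]
      rw [mul_assoc, ← mul_pow]
      norm_num
    calc (κ n x : ℝ) * s n ≤ x * 2 ^ n * s n := by gcongr
      _ = x := e2
  have hκ2 : ∀ n (x : I), (x : ℝ) < ((κ n x : ℝ) + 1) * s n := by
    intro n x
    have e1 : (x : ℝ) * 2 ^ n < κ n x + 1 := Nat.lt_floor_add_one _
    have e2 : (x : ℝ) * 2 ^ n * s n = x := by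
      simp only [s]
      rw [mul_assoc, ← mul_pow]
      norm_num
    calc (x : ℝ) = x * 2 ^ n * s n := e2.symm
      _ < (κ n x + 1) * s n := by
        have := hs n
        gcongr
  have hκ3 : ∀ n (x : I), κ n x < 2 ^ n + 1 := by
    intro n x
    have e1 : (x : ℝ) * 2 ^ n ≤ ((2 ^ n : ℕ) : ℝ) := by
      push_cast
      have := x.2.2
      have h3 : (0 : ℝ) < 2 ^ n := by positivity
      nlinarith
    have e2 : κ n x ≤ 2 ^ n := by
      have := Nat.floor_le_floor e1
      rwa [Nat.floor_natCast] at this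
    omega
  have hy := fun (n : ℕ) (x : I) => hgx n (κ n x) (hκ3 n x) x (hκ1 n x) (hκ2 n x)
  choose y hyH hyd using hy
  -- the heights decrease
  have hκκ : ∀ n (x : I), κ (n + 1) x = 2 * κ n x ∨ κ (n + 1) x = 2 * κ n x + 1 := by
    intro n x
    have e1 := hκ1 n x
    have e2 := hκ2 n x
    have e3 := hκ1 (n + 1) x
    have e4 := hκ2 (n + 1) x
    rw [hs1] at e3 e4
    have hp := hs n
    have e5 : (κ (n + 1) x : ℝ) < 2 * κ n x + 2 := by
      by_contra hcon
      push Not at hcon
      have : (2 * (κ n x : ℝ) + 2) * (s n / 2) ≤ κ (n + 1) x * (s n / 2) := by gcongr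
      linarith
    have e6 : (2 * κ n x : ℝ) < κ (n + 1) x + 1 := by
      by_contra hcon
      push Not at hcon
      have : ((κ (n + 1) x : ℝ) + 1) * (s n / 2) ≤ 2 * κ n x * (s n / 2) := by gcongr
      linarith
    have e7 : κ (n + 1) x < 2 * κ n x + 2 := by exact_mod_cast e5
    have e8 : 2 * κ n x < κ (n + 1) x + 1 := by exact_mod_cast e6
    omega
  have hyanti : ∀ (x : I) n, y (n + 1) x ≤ y n x := by
    intro x n
    obtain ⟨a1, a2, a3, a4⟩ := hyH n x
    obtain ⟨b1, b2, b3, b4⟩ := hyH (n + 1) x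
    have hp := hs n
    rcases hκκ n x with h | h
    · have e1 : ((κ (n + 1) x : ℝ) + 1) * s (n + 1) + s (n + 1) = (κ n x + 1) * s n := by
        rw [h, hs1]
        push_cast
        ring
      rw [e1] at b2
      exact b2.trans a1
    · have e1 : ((κ (n + 1) x : ℝ) + 1) * s (n + 1) = (κ n x + 1) * s n := by
        rw [h, hs1]
        push_cast
        ring
      rw [e1] at b1 b2 b3 b4
      by_cases hx : (x : ℝ) < (κ n x + 1) * s n - η (n + 1) ((κ n x + 1) * s n)
      · rw [b3 hx]
        exact a1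
      · push Not at hx
        have e2 := hηη n ((κ n x + 1) * s n)
        rw [a4 (by linarith)]
        rw [hs1] at b2
        linarith
  have hyx1 : ∀ (x : I) n, (x : ℝ) ≤ y n x := by
    intro x n
    exact (hκ2 n x).le.trans (hyH n x).1
  have hyx2 : ∀ (x : I) n, y n x ≤ x + 2 * s n := by
    intro x n
    have e1 := (hyH n x).2.1
    have e2 := hκ1 n x
    linarith
  have hs0 : Tendsto s atTop (𝓝 0) := tendsto_pow_atTop_nhds_zero_of_lt_one (by norm_num) (by norm_num)
  have hylim : ∀ x : I, Tendsto (fun n => y n x) atTop (𝓝 (x : ℝ)) := by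
    intro x
    refine tendsto_of_tendsto_of_tendsto_of_le_of_le tendsto_const_nhds ?_ (hyx1 x) (hyx2 x)
    simpa using (hs0.const_mul 2).const_add (x : ℝ)
  have hprx : ∀ x : I, pr x = x := fun x => projIcc_val zero_le_one x
  have hsumS : Summable s := summable_geometric_two
  refine ⟨fun n x => g n x, fun n => (hg n).comp continuous_subtype_val, ?_, ?_⟩
  · intro x
    have e1 : Tendsto (fun n => F x (y n x)) atTop (𝓝 (f (x, x))) := by
      have e0 : Tendsto (fun n => F x (y n x)) atTop (𝓝 (F x x)) :=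
        ((h1 x).tendsto (x : ℝ)).comp (hylim x)
      have e00 : F x x = f (x, x) := by simp [F, hprx]
      rwa [e00] at e0
    rw [tendsto_iff_dist_tendsto_zero] at e1 ⊢
    refine squeeze_zero (fun _ => dist_nonneg) (fun n => ?_)
      (g := fun n => 2 * s n + dist (F x (y n x)) (f (x, x))) ?_
    · exact (dist_triangle _ (F x (y n x)) _).trans (add_le_add (hyd n x) le_rfl)
    · simpa using (hs0.const_mul 2).add e1
  · intro x
    have e1 : Summable fun n => dist (F x (y (n + 1) x)) (F x (y n x)) := by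
      have := (hf.2 x).summable (fun n => pr (y n x))
        (antitone_nat_of_succ_le fun n => hprm (hyanti x n))
      simpa [F, hprx] using this
    have e2 : Summable fun n => 2 * s (n + 1) + dist (F x (y (n + 1) x)) (F x (y n x)) + 2 * s n := by
      exact ((((summable_nat_add_iff 1).2 hsumS).mul_left 2).add e1).add (hsumS.mul_left 2)
    refine Summable.of_nonneg_of_le (fun _ => dist_nonneg) (fun n => ?_) e2
    calc dist (g (n + 1) x) (g n x)
        ≤ dist (g (n + 1) x) (F x (y (n + 1) x)) + dist (F x (y (n + 1) x)) (F x (y n x)) +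
            dist (F x (y n x)) (g n x) := dist_triangle4 _ _ _ _
      _ ≤ 2 * s (n + 1) + dist (F x (y (n + 1) x)) (F x (y n x)) + 2 * s n := by
        rw [dist_comm (F x (y n x)) (g n x)]
        gcongr
        · exact hyd (n + 1) x
        · exact hyd n x

end Pool.Agent.Results.MP_680d10_gt.DiagAbsBaireOne
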